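import Pool.Agent.Helper49.QU.Defs
import Pool.Agent.Helper11.QU.P2
import Pool.Agent.Helper11.QU.P3
import Pool.Agent.Helper8.QU.Class
import Pool.Agent.Helper28.QU.P6
import Pool.Agent.Helper29.QU.Map
import Pool.Agent.Helper43.QU.P4
import Pool.Agent.Helper33.QU.Dom
import Pool.Agent.Helper35.CB.TriThree

/-!
# T-QUAD: potential density of fibre products of quadric bundles
-/

set_option autoImplicit false

namespace Pool.Agent.Helper49.QU

open Matrix Pool.Agent.Helper4.CB Pool.Agent.Helper65.CB Pool.Agent.Helper69.CB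
open AlgebraicGeometry CategoryTheory Pool.Agent.Helper15

variable {n r : ℕ} {N : Fin r → ℕ}

/-- the irreducible factors of the symbol -/
theorem factor_class {k : Type} [Field k] [CharZero k] (dm : ℕ) (hdm : 2 ≤ dm)
    (B : ∀ i : Fin r, Matrix (Fin (N i)) (Fin (N i)) (MvPolynomial (Fin n) k))
    (hB : ∀ i, (B i).IsSymm) (i : Fin r)
    (hr : ∃ f g : Fin 3 → Fin (N i), ((B i).submatrix f g).det ≠ 0)
    (h : ∀ P : MvPolynomial (Fin n) k, Irreducible P →
      (∀ j : Fin n, (∀ l < j, P.degreeOf l = 0) → P.degreeOf j ≤ dm) ∨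
        ¬ Minors (B i) P ∨ SplitAt (B i) P)
    (P : MvPolynomial (Fin (vn N + n)) k) (hP : Irreducible P)
    (hd : P ∣ aQ N B i * bQ N B i) :
    (∀ j : Fin (vn N + n), (∀ l < j, P.degreeOf l = 0) → P.degreeOf j ≤ dm) ∨
      LCU P (aQ N B i) (bQ N B i) :=
  Pool.Agent.Helper8.QU.factor_class_of dm hdm B i (fun s => Pool.Agent.Helper11.QU.degreeOf_D B i s)
    (fun P hP h => Pool.Agent.Helper11.QU.minors_of_dvd B hB i P hP h)
    (fun P hP hs hb => Pool.Agent.Helper43.QU.lcu_of_split B hB i P hP hs hb)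
    (Pool.Agent.Helper28.QU.aQ_bQ_ne_zero B hB i hr).2 h P hP hd

/-- **T-QUAD** -/
theorem t_quad (K : Type) [Field K] [NumberField K] (n r : ℕ) (N : Fin r → ℕ)
    (B : ∀ i : Fin r, Matrix (Fin (N i)) (Fin (N i)) (MvPolynomial (Fin n) K))
    (hB : ∀ i, (B i).IsSymm)
    (hr : ∀ i, ∃ f g : Fin 3 → Fin (N i), ((B i).submatrix f g).det ≠ 0)
    (h : ∀ i, ∀ P : MvPolynomial (Fin n) (AlgebraicClosure K), Irreducible P →
      (∀ j : Fin n, (∀ l < j, P.degreeOf l = 0) → P.degreeOf j ≤ 3) ∨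
        ¬ Minors ((B i).map (MvPolynomial.map (algebraMap K (AlgebraicClosure K)))) P ∨
        SplitAt ((B i).map (MvPolynomial.map (algebraMap K (AlgebraicClosure K)))) P) :
    ∃ δ : MvPolynomial (Fin n) K, δ ≠ 0 ∧ ∀ (X : Scheme.{0}) (s : X ⟶ Spec (CommRingCat.of K)),
      DominatedOver K X (Spec (CommRingCat.of (QRing B δ))) s
        (Spec.map (CommRingCat.ofHom (algebraMap K (QRing B δ)))) →
      PotentiallyDense K X s := by
  obtain ⟨v, hv⟩ := Classical.axiom_of_choice fun i =>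
    Pool.Agent.Helper28.QU.exists_const (B i) (hB i) (hr i)
  obtain ⟨δ, hδ⟩ : ∃ δ : MvPolynomial (Fin n) K, δ =
      ∏ i, D1 (B i) (fun c j => MvPolynomial.C (v i c j)) *
      D2 (B i) (fun c j => MvPolynomial.C (v i c j)) := ⟨_, rfl⟩
  have hδ0 : δ ≠ 0 := by
    rw [hδ]
    exact Finset.prod_ne_zero_iff.2 fun i _ => hv i
  refine ⟨δ, hδ0, fun X s hX => ?_⟩
  have hdom := Pool.Agent.Helper33.QU.dominated B hB v δ hδ hδ0
  have hY : PotentiallyDense K (Spec (CommRingCat.of (QRing B δ)))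
      (Spec.map (CommRingCat.ofHom (algebraMap K (QRing B δ)))) := by
    refine Pool.Agent.Helper35.CB.t_tri_three K (aQ N B) (bQ N B)
      (fun i => (Pool.Agent.Helper28.QU.aQ_bQ_ne_zero B hB i (hr i)).1)
      (fun i => (Pool.Agent.Helper28.QU.aQ_bQ_ne_zero B hB i (hr i)).2)
      ?_ (Spec (CommRingCat.of (QRing B δ)))
      (Spec.map (CommRingCat.ofHom (algebraMap K (QRing B δ)))) hdom
    intro i P hP hPd
    rw [map_mul, (Pool.Agent.Helper29.QU.map_aQ_bQ _ B i).1,
      (Pool.Agent.Helper29.QU.map_aQ_bQ _ B i).2] at hPd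
    rw [(Pool.Agent.Helper29.QU.map_aQ_bQ _ B i).1, (Pool.Agent.Helper29.QU.map_aQ_bQ _ B i).2]
    refine factor_class 3 (by norm_num) (fun i => (B i).map
      (MvPolynomial.map (algebraMap K (AlgebraicClosure K)))) (fun i => ?_) i ?_ (h i) P hP hPd
    · exact (hB i).map _
    · obtain ⟨f, g, hfg⟩ := hr i
      refine ⟨f, g, ?_⟩
      intro h0
      apply hfg
      have h1 := (RingHom.map_det (MvPolynomial.map (algebraMap K (AlgebraicClosure K)))
        ((B i).submatrix f g))
      have h2 : MvPolynomial.map (algebraMap K (AlgebraicClosure K))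
          ((B i).submatrix f g).det = 0 := by
        rw [h1]; exact h0
      exact MvPolynomial.map_injective _ (algebraMap K (AlgebraicClosure K)).injective
        (by rw [h2, map_zero])
  exact PotentiallyDense.of_dominated hX hY

end Pool.Agent.Helper49.QU
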