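import Pool.Agent.Helper49.QU.Fr
set_option autoImplicit false

namespace Pool.Agent.Helper49.QU

open Matrix Pool.Agent.Helper4.CB Pool.Agent.Helper65.CB Pool.Agent.Helper69.CB
open AlgebraicGeometry CategoryTheory Pool.Agent.Helper15

theorem final_tri' (K : Type) [Field K] [NumberField K] (dm : ℕ) (m r : ℕ)
    (htri : ∀ (M : Type) [Field M] [NumberField M] (a b : Fin r → MvPolynomial (Fin m) M),
      (∀ i, a i ≠ 0) → (∀ i, b i ≠ 0) →
      (∀ i, ∀ P : MvPolynomial (Fin m) M, Irreducible P → P ∣ a i * b i →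
        TriDeg dm P ∨ LCU P (a i) (b i)) →
      ∃ J, ∀ f : MvPolynomial (Fin m) M, f ≠ 0 →
        ∃ φ : MvPolynomial (Fin m) M →ₐ[M] M, φ f ≠ 0 ∧ ∀ i, HS M J (φ (a i)) (φ (b i)))
    (a b : Fin r → MvPolynomial (Fin m) K) (ha : ∀ i, a i ≠ 0) (hb : ∀ i, b i ≠ 0)
    (h : ∀ i, ∀ P : MvPolynomial (Fin m) (AlgebraicClosure K), Irreducible P →
      P ∣ MvPolynomial.map (algebraMap K (AlgebraicClosure K)) (a i * b i) →
      (∀ j : Fin m, (∀ k < j, P.degreeOf k = 0) → P.degreeOf j ≤ dm) ∨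
      LCU P (MvPolynomial.map (algebraMap K (AlgebraicClosure K)) (a i))
        (MvPolynomial.map (algebraMap K (AlgebraicClosure K)) (b i)))
    (X : Scheme.{0}) (s : X ⟶ Spec (CommRingCat.of K))
    (hX : DominatedOver K X (Spec (CommRingCat.of (CRing a b))) s
      (Spec.map (CommRingCat.ofHom (algebraMap K (CRing a b))))) :
    PotentiallyDense K X s :=
  final_tri K dm m r htri a b ha hb h X s hX

/-- **T-QUAD** from `T-TRI` -/
theorem t_quad_of (K : Type) [Field K] [NumberField K] (dm : ℕ) (hdm : 2 ≤ dm) (n r : ℕ)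
    (N : Fin r → ℕ)
    (htri : ∀ (M : Type) [Field M] [NumberField M] (a b : Fin r → MvPolynomial (Fin (vn N + n)) M),
      (∀ i, a i ≠ 0) → (∀ i, b i ≠ 0) →
      (∀ i, ∀ P : MvPolynomial (Fin (vn N + n)) M, Irreducible P → P ∣ a i * b i →
        TriDeg dm P ∨ LCU P (a i) (b i)) →
      ∃ J, ∀ f : MvPolynomial (Fin (vn N + n)) M, f ≠ 0 →
        ∃ φ : MvPolynomial (Fin (vn N + n)) M →ₐ[M] M, φ f ≠ 0 ∧ ∀ i, HS M J (φ (a i)) (φ (b i)))
    (B : ∀ i : Fin r, Matrix (Fin (N i)) (Fin (N i)) (MvPolynomial (Fin n) K))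
    (hB : ∀ i, (B i).IsSymm)
    (hr : ∀ i, ∃ f g : Fin 3 → Fin (N i), ((B i).submatrix f g).det ≠ 0)
    (h : ∀ i, ∀ P : MvPolynomial (Fin n) (AlgebraicClosure K), Irreducible P →
      (∀ j : Fin n, (∀ l < j, P.degreeOf l = 0) → P.degreeOf j ≤ dm) ∨
        ¬ Minors ((B i).map (MvPolynomial.map (algebraMap K (AlgebraicClosure K)))) P ∨
        SplitAt ((B i).map (MvPolynomial.map (algebraMap K (AlgebraicClosure K)))) P) :
    ∃ δ : MvPolynomial (Fin n) K, δ ≠ 0 ∧ ∀ (X : Scheme.{0}) (s : X ⟶ Spec (CommRingCat.of K)),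
      DominatedOver K X (Spec (CommRingCat.of (QRing B δ))) s
        (Spec.map (CommRingCat.ofHom (algebraMap K (QRing B δ)))) →
      PotentiallyDense K X s := by
  obtain ⟨v, hv⟩ := Classical.axiom_of_choice fun i => exists_const (B i) (hB i) (hr i)
  obtain ⟨δ, hδ⟩ : ∃ δ : MvPolynomial (Fin n) K, δ =
      ∏ i, D1 (B i) (fun c j => MvPolynomial.C (v i c j)) *
      D2 (B i) (fun c j => MvPolynomial.C (v i c j)) := ⟨_, rfl⟩
  have hδ0 : δ ≠ 0 := by
    rw [hδ]
    exact Finset.prod_ne_zero_iff.2 fun i _ => hv i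
  refine ⟨δ, hδ0, fun X s hX => ?_⟩
  have hdom := dominated B hB v δ hδ hδ0
  have hY : PotentiallyDense K (Spec (CommRingCat.of (QRing B δ)))
      (Spec.map (CommRingCat.ofHom (algebraMap K (QRing B δ)))) := by
    refine final_tri' K dm (vn N + n) r htri (aQ N B) (bQ N B)
      (fun i => (aQ_bQ_ne_zero B hB i (hr i)).1) (fun i => (aQ_bQ_ne_zero B hB i (hr i)).2)
      ?_ (Spec (CommRingCat.of (QRing B δ))) (Spec.map (CommRingCat.ofHom (algebraMap K (QRing B δ)))) hdom
    intro i P hP hPd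
    rw [map_mul, (map_aQ_bQ _ B i).1, (map_aQ_bQ _ B i).2] at hPd
    rw [(map_aQ_bQ _ B i).1, (map_aQ_bQ _ B i).2]
    refine factor_class dm hdm (fun i => (B i).map
      (MvPolynomial.map (algebraMap K (AlgebraicClosure K)))) (fun i => ?_) i ?_ (h i) P hP hPd
    · exact (hB i).map _
    · obtain ⟨f, g, hfg⟩ := hr i
      refine ⟨f, g, ?_⟩
      intro h0
      apply hfg
      have h1 := (RingHom.map_det (MvPolynomial.map (algebraMap K (AlgebraicClosure K)))
        ((B i).submatrix f g))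
      have h2 : MvPolynomial.map (algebraMap K (AlgebraicClosure K)) ((B i).submatrix f g).det = 0 := by
        rw [h1]; exact h0
      exact MvPolynomial.map_injective _ (algebraMap K (AlgebraicClosure K)).injective
        (by rw [h2, map_zero])
  exact PotentiallyDense.of_dominated hX hY

end Pool.Agent.Helper49.QU
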