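import Pool.Agent.Helper49.QU.Lin
import Pool.Agent.Helper4.CB.FinalTri

/-!
# T-QUAD: definitions

`B i` is a symmetric matrix over `K[t_1, .., t_n]`, `i : Fin r`; for every `i` three generic vectors
`v_0, v_1, v_2` with new variables (which come FIRST in `Fin (vn N + n)`, i.e. are chosen last); the
restriction of the quadric to the plane spanned by them is the conic with symbol
`(- D2, - D1 D2 D3)`.
-/

set_option autoImplicit false

namespace Pool.Agent.Helper49.QU

open Matrix

section Ring

variable {R : Type*} [CommRing R] {N : ℕ}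

/-- the Gram minors of three vectors -/
def D1 (B : Matrix (Fin N) (Fin N) R) (v : Fin 3 → Fin N → R) : R := bil B (v 0) (v 0)

def D2 (B : Matrix (Fin N) (Fin N) R) (v : Fin 3 → Fin N → R) : R :=
  bil B (v 0) (v 0) * bil B (v 1) (v 1) - bil B (v 0) (v 1) ^ 2

def D3 (B : Matrix (Fin N) (Fin N) R) (v : Fin 3 → Fin N → R) : R :=
  (Matrix.of fun c d : Fin 3 => bil B (v c) (v d)).det

/-- the symbol of the conic on the plane spanned by `v 0, v 1, v 2` -/
def qa (B : Matrix (Fin N) (Fin N) R) (v : Fin 3 → Fin N → R) : R := -D2 B v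

def qb (B : Matrix (Fin N) (Fin N) R) (v : Fin 3 → Fin N → R) : R := -(D1 B v * D2 B v * D3 B v)

/-- the point of the quadric given by the point `(x, y)` of the conic `x ^ 2 = a y ^ 2 + b` -/
def upt (B : Matrix (Fin N) (Fin N) R) (v : Fin 3 → Fin N → R) (x y : R) (j : Fin N) : R :=
  x * v 0 j + y * (D1 B v * v 1 j - bil B (v 0) (v 1) * v 0 j) +
    D1 B v * ((bil B (v 0) (v 1) * bil B (v 1) (v 2) - bil B (v 0) (v 2) * bil B (v 1) (v 1)) * v 0 j
      - (bil B (v 0) (v 0) * bil B (v 1) (v 2) - bil B (v 0) (v 1) * bil B (v 0) (v 2)) * v 1 j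
      + D2 B v * v 2 j)

/-- `P` divides all `3 × 3` minors: the rank of `B` modulo `P` is at most two -/
def Minors (B : Matrix (Fin N) (Fin N) R) (P : R) : Prop :=
  ∀ f g : Fin 3 → Fin N, P ∣ (B.submatrix f g).det

/-- the quadric is a union of two different hyperplanes, defined over the residue field, modulo
`P` -/
def SplitAt (B : Matrix (Fin N) (Fin N) R) (P : R) : Prop :=
  ∃ (c : R) (l l' : Fin N → R), ¬ P ∣ c ∧
    (∀ j k, P ∣ 2 * c * B j k - (l j * l' k + l k * l' j)) ∧ ∃ j k, ¬ P ∣ l j * l' k - l k * l' j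

end Ring

section Vars

variable {n r : ℕ} (N : Fin r → ℕ)

/-- the index set of the new variables -/
abbrev VI : Type := Σ i : Fin r, Fin 3 × Fin (N i)

/-- the number of new variables -/
abbrev vn : ℕ := Fintype.card (VI N)

/-- the new variables come first -/
noncomputable def vix (s : VI N) : Fin (vn N + n) := Fin.castAdd n (Fintype.equivFin (VI N) s)

/-- the old variables -/
noncomputable def tix (j : Fin n) : Fin (vn N + n) := Fin.natAdd (vn N) j

variable (n) in
/-- the old polynomials in the new ring -/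
noncomputable def inc (k : Type) [Field k] :
    MvPolynomial (Fin n) k →ₐ[k] MvPolynomial (Fin (vn N + n)) k :=
  MvPolynomial.rename (tix N)

variable (n) in
/-- the generic vectors -/
noncomputable def gv (k : Type) [Field k] (i : Fin r) :
    Fin 3 → Fin (N i) → MvPolynomial (Fin (vn N + n)) k :=
  fun c j => MvPolynomial.X (vix N ⟨i, c, j⟩)

variable {k : Type} [Field k]

/-- the matrices in the new ring -/
noncomputable def incB (B : ∀ i : Fin r, Matrix (Fin (N i)) (Fin (N i)) (MvPolynomial (Fin n) k))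
    (i : Fin r) : Matrix (Fin (N i)) (Fin (N i)) (MvPolynomial (Fin (vn N + n)) k) :=
  (B i).map (inc n N k)

/-- the symbols -/
noncomputable def aQ (B : ∀ i : Fin r, Matrix (Fin (N i)) (Fin (N i)) (MvPolynomial (Fin n) k))
    (i : Fin r) : MvPolynomial (Fin (vn N + n)) k := qa (incB N B i) (gv n N k i)

noncomputable def bQ (B : ∀ i : Fin r, Matrix (Fin (N i)) (Fin (N i)) (MvPolynomial (Fin n) k))
    (i : Fin r) : MvPolynomial (Fin (vn N + n)) k := qb (incB N B i) (gv n N k i)

end Vars

section Bundle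

variable {K : Type} [Field K] {n r : ℕ} {N : Fin r → ℕ}

/-- the coordinate ring of the fibre product of the quadric bundles (affine cones) over
`δ ≠ 0` -/
abbrev QRing (B : ∀ i : Fin r, Matrix (Fin (N i)) (Fin (N i)) (MvPolynomial (Fin n) K))
    (δ : MvPolynomial (Fin n) K) : Type :=
  MvPolynomial (Σ i : Fin r, Fin (N i)) (Localization.Away δ) ⧸ Ideal.span
    (Set.range fun i : Fin r => ∑ j, ∑ k, MvPolynomial.C (algebraMap _ (Localization.Away δ)
      (B i j k)) * MvPolynomial.X (⟨i, j⟩ : Σ i : Fin r, Fin (N i)) *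
        MvPolynomial.X (⟨i, k⟩ : Σ i : Fin r, Fin (N i)))

/-- the coordinate ring of the product of conics of `T-TRI` -/
abbrev CRing {m r : ℕ} (a b : Fin r → MvPolynomial (Fin m) K) : Type :=
  MvPolynomial (Fin r × Fin 2) (MvPolynomial (Fin m) K) ⧸ Ideal.span
    (Set.range fun i : Fin r => (MvPolynomial.X (i, 0) ^ 2 -
      MvPolynomial.C (a i) * MvPolynomial.X (i, 1) ^ 2 - MvPolynomial.C (b i) :
        MvPolynomial (Fin r × Fin 2) (MvPolynomial (Fin m) K)))

end Bundle

end Pool.Agent.Helper49.QU
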