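import Pool.Agent.Helper49.QU.Defs

/-!
# T-QUAD: frames
-/

set_option autoImplicit false

namespace Pool.Agent.Helper49.QU

open Matrix Pool.Agent.Helper4.CB Pool.Agent.Helper65.CB Pool.Agent.Helper69.CB
open AlgebraicGeometry CategoryTheory Pool.Agent.Helper15

variable {n r : ℕ} {N : Fin r → ℕ}

/-! ## Gram minors (helper11) -/

section Gram

variable {k : Type} [Field k]

/-- **P2.** the Gram minors have degree at most two in every new variable -/
theorem degreeOf_D (B : ∀ i : Fin r, Matrix (Fin (N i)) (Fin (N i)) (MvPolynomial (Fin n) k))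
    (i : Fin r) (s : VI N) :
    (D1 (incB N B i) (gv n N k i)).degreeOf (vix N s) ≤ 2 ∧
    (D2 (incB N B i) (gv n N k i)).degreeOf (vix N s) ≤ 2 ∧
    (D3 (incB N B i) (gv n N k i)).degreeOf (vix N s) ≤ 2 := by
  sorry

/-- **P3.** an irreducible polynomial in the old variables which divides a Gram minor divides all
`3 × 3` minors of `B i` (from `exists_three` over the fraction field of `k[t] / P`) -/
theorem minors_of_dvd [CharZero k]
    (B : ∀ i : Fin r, Matrix (Fin (N i)) (Fin (N i)) (MvPolynomial (Fin n) k))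
    (hB : ∀ i, (B i).IsSymm) (i : Fin r) (P : MvPolynomial (Fin n) k) (hP : Irreducible P)
    (h : inc n N k P ∣ aQ N B i * bQ N B i) : Minors (B i) P := by
  sorry

/-- **P4.** a split fibre gives an unramified symbol: `c ^ 2 (- D2)` is a square modulo `P` -/
theorem lcu_of_split [CharZero k]
    (B : ∀ i : Fin r, Matrix (Fin (N i)) (Fin (N i)) (MvPolynomial (Fin n) k))
    (hB : ∀ i, (B i).IsSymm) (i : Fin r) (P : MvPolynomial (Fin n) k) (hP : Irreducible P)
    (hs : SplitAt (B i) P) (hb : bQ N B i ≠ 0) :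
    LCU (inc n N k P) (aQ N B i) (bQ N B i) := by
  sorry

/-- **P6a.** -/
theorem aQ_bQ_ne_zero [CharZero k]
    (B : ∀ i : Fin r, Matrix (Fin (N i)) (Fin (N i)) (MvPolynomial (Fin n) k))
    (hB : ∀ i, (B i).IsSymm) (i : Fin r)
    (h : ∃ f g : Fin 3 → Fin (N i), ((B i).submatrix f g).det ≠ 0) :
    aQ N B i ≠ 0 ∧ bQ N B i ≠ 0 := by
  sorry

/-- **P6b.** two constant vectors -/
theorem exists_const [CharZero k] {N : ℕ} (B : Matrix (Fin N) (Fin N) (MvPolynomial (Fin n) k))
    (hB : B.IsSymm) (h : ∃ f g : Fin 3 → Fin N, (B.submatrix f g).det ≠ 0) :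
    ∃ v : Fin 3 → Fin N → k, D1 B (fun c j => MvPolynomial.C (v c j)) *
      D2 B (fun c j => MvPolynomial.C (v c j)) ≠ 0 := by
  sorry

/-- **P5a.** a polynomial without new variables is an old one -/
theorem exists_old (P : MvPolynomial (Fin (vn N + n)) k) (hP : Irreducible P)
    (h : ∀ s : VI N, P.degreeOf (vix N s) = 0) :
    ∃ P0 : MvPolynomial (Fin n) k, Irreducible P0 ∧ P = inc n N k P0 ∧
      ∀ j, P.degreeOf (tix N j) = P0.degreeOf j := by
  sorry

/-- **P5b.** the irreducible factors of the symbol -/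
theorem factor_class [CharZero k] (dm : ℕ) (hdm : 2 ≤ dm)
    (B : ∀ i : Fin r, Matrix (Fin (N i)) (Fin (N i)) (MvPolynomial (Fin n) k))
    (hB : ∀ i, (B i).IsSymm) (i : Fin r)
    (hr : ∃ f g : Fin 3 → Fin (N i), ((B i).submatrix f g).det ≠ 0)
    (h : ∀ P : MvPolynomial (Fin n) k, Irreducible P →
      (∀ j : Fin n, (∀ l < j, P.degreeOf l = 0) → P.degreeOf j ≤ dm) ∨
        ¬ Minors (B i) P ∨ SplitAt (B i) P)
    (P : MvPolynomial (Fin (vn N + n)) k) (hP : Irreducible P)
    (hd : P ∣ aQ N B i * bQ N B i) :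
    (∀ j : Fin (vn N + n), (∀ l < j, P.degreeOf l = 0) → P.degreeOf j ≤ dm) ∨
      LCU P (aQ N B i) (bQ N B i) := by
  sorry

/-- **P5c.** base change -/
theorem map_aQ_bQ {k' : Type} [Field k'] (φ : k →+* k')
    (B : ∀ i : Fin r, Matrix (Fin (N i)) (Fin (N i)) (MvPolynomial (Fin n) k)) (i : Fin r) :
    MvPolynomial.map φ (aQ N B i) = aQ N (fun i => (B i).map (MvPolynomial.map φ)) i ∧
    MvPolynomial.map φ (bQ N B i) = bQ N (fun i => (B i).map (MvPolynomial.map φ)) i := by
  sorry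

end Gram

/-! ## The point of the quadric (helper92) -/

section Point

variable {R : Type*} [CommRing R] {M : ℕ}

/-- **P7a.** -/
theorem bil_upt (B : Matrix (Fin M) (Fin M) R) (hB : B.IsSymm) (v : Fin 3 → Fin M → R) (x y : R) :
    bil B (upt B v x y) (upt B v x y) = D1 B v * (x ^ 2 - qa B v * y ^ 2 - qb B v) := by
  sorry

/-- **P7b.** every isotropic vector is `upt` of given `v 0`, `v 1` -/
theorem exists_upt (B : Matrix (Fin M) (Fin M) R) (hB : B.IsSymm) (v : Fin 3 → Fin M → R)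
    (h1 : IsUnit (D1 B v)) (h2 : IsUnit (D2 B v)) (u : Fin M → R) (hu : bil B u u = 0) :
    ∃ (w : Fin M → R) (x y : R), let v' : Fin 3 → Fin M → R := ![v 0, v 1, w]
      x ^ 2 = qa B v' * y ^ 2 + qb B v' ∧ upt B v' x y = u := by
  sorry

end Point

/-! ## Dominance (helper33) -/

section Dom

variable {K : Type} [Field K] [CharZero K]

/-- **P7c.** `δ = ∏ i, D1 D2` of the constant vectors; `φ : QRing → CRing[1/δ]`, `x_(i,j) ↦ upt`,
has a left inverse by `exists_upt` over `QRing` itself. -/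
theorem dominated (B : ∀ i : Fin r, Matrix (Fin (N i)) (Fin (N i)) (MvPolynomial (Fin n) K))
    (hB : ∀ i, (B i).IsSymm) (v : ∀ i : Fin r, Fin 3 → Fin (N i) → K)
    (δ : MvPolynomial (Fin n) K)
    (hδ : δ = ∏ i, D1 (B i) (fun c j => MvPolynomial.C (v i c j)) *
      D2 (B i) (fun c j => MvPolynomial.C (v i c j))) (hδ0 : δ ≠ 0) :
    DominatedOver K (Spec (CommRingCat.of (QRing B δ)))
      (Spec (CommRingCat.of (CRing (aQ N B) (bQ N B))))
      (Spec.map (CommRingCat.ofHom (algebraMap K (QRing B δ))))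
      (Spec.map (CommRingCat.ofHom (algebraMap K (CRing (aQ N B) (bQ N B))))) := by
  sorry

end Dom

end Pool.Agent.Helper49.QU
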