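import Mathlib

/-!
# Quadric bundles, linear algebra: three orthogonal anisotropic vectors
-/

set_option autoImplicit false

namespace Pool.Agent.Helper49.QU

open Matrix

/-- the bilinear form of a matrix -/
def bil {R : Type*} [CommRing R] {N : ℕ} (B : Matrix (Fin N) (Fin N) R) (v w : Fin N → R) : R :=
  ∑ i, ∑ j, v i * B i j * w j

theorem bil_eq {F : Type*} [CommRing F] {N : ℕ} (B : Matrix (Fin N) (Fin N) F) (v w : Fin N → F) :
    bil B v w = Matrix.toBilin' B v w := by
  rw [Matrix.toBilin'_apply]
  rfl

theorem bil_comm {R : Type*} [CommRing R] {N : ℕ} {B : Matrix (Fin N) (Fin N) R} (hB : B.IsSymm)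
    (v w : Fin N → R) : bil B v w = bil B w v := by
  unfold bil
  rw [Finset.sum_comm]
  apply Finset.sum_congr rfl
  intro i _
  apply Finset.sum_congr rfl
  intro j _
  rw [hB.apply i j]
  ring

/-- a symmetric matrix with a nonzero `3 × 3` minor has three orthogonal anisotropic vectors -/
theorem exists_three {F : Type*} [Field F] [CharZero F] {N : ℕ} (B : Matrix (Fin N) (Fin N) F)
    (hB : B.IsSymm) (f g : Fin 3 → Fin N) (hd : (B.submatrix f g).det ≠ 0) :
    ∃ V : Fin 3 → Fin N → F, (∀ c, bil B (V c) (V c) ≠ 0) ∧
      ∀ c d, c ≠ d → bil B (V c) (V d) = 0 := by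
  classical
  have h2 : Invertible (2 : F) := invertibleOfNonzero two_ne_zero
  have hs : LinearMap.IsSymm (Matrix.toBilin' B) := by
    constructor
    intro x y
    simp only [RingHom.id_apply]
    rw [← bil_eq, ← bil_eq, bil_comm hB]
  obtain ⟨v, hv⟩ := LinearMap.BilinForm.exists_orthogonal_basis hs
  set Z : Finset (Fin (Module.finrank F (Fin N → F))) :=
    Finset.univ.filter (fun i => Matrix.toBilin' B (v i) (v i) ≠ 0) with hZ
  by_cases hcard : 3 ≤ Z.card
  · obtain ⟨T, hTZ, hT⟩ := Finset.exists_subset_card_eq hcard
    let φ : Fin 3 ≃ T := (Finset.equivFinOfCardEq hT).symm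
    refine ⟨fun c => v (φ c), ?_, ?_⟩
    · intro c
      rw [bil_eq]
      have : (φ c : Fin _) ∈ Z := hTZ (φ c).2
      rw [hZ, Finset.mem_filter] at this
      exact this.2
    · intro c d hcd
      rw [bil_eq]
      have hne : (φ c : Fin (Module.finrank F (Fin N → F))) ≠ φ d := by
        intro h
        exact hcd (φ.injective (Subtype.ext h))
      exact hv hne
  · exfalso
    push Not at hcard
    -- the matrix factors through `Z`
    have hexp : ∀ x y : Fin N → F, Matrix.toBilin' B x y =
        ∑ k ∈ Z, v.repr x k * (v.repr y k * Matrix.toBilin' B (v k) (v k)) := by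
      intro x y
      conv_lhs => rw [← v.sum_repr x, ← v.sum_repr y]
      simp only [map_sum, LinearMap.sum_apply, map_smul, LinearMap.smul_apply, smul_eq_mul]
      have h3 : ∑ k ∈ Z, v.repr x k * (v.repr y k * Matrix.toBilin' B (v k) (v k)) =
          ∑ k, v.repr x k * (v.repr y k * Matrix.toBilin' B (v k) (v k)) := by
        rw [hZ, Finset.sum_filter]
        apply Finset.sum_congr rfl
        intro k _
        split_ifs with h
        · rfl
        · push Not at h
          rw [h]; ring
      rw [h3]
      apply Finset.sum_congr rfl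
      intro k _
      rw [Finset.sum_eq_single k]
      · ring
      · intro l _ hlk
        have h5 : Matrix.toBilin' B (v l) (v k) = 0 := hv hlk
        rw [h5]; ring
      · intro h; exact absurd (Finset.mem_univ k) h
    let U : Matrix (Fin 3) Z F := fun a k => v.repr (Pi.single (f a) 1) k
    let W : Matrix Z (Fin 3) F := fun k b =>
      v.repr (Pi.single (g b) 1) k * Matrix.toBilin' B (v k) (v k)
    have hUW : B.submatrix f g = U * W := by
      ext a b
      rw [Matrix.mul_apply, Matrix.submatrix_apply]
      have h3 : B (f a) (g b) = Matrix.toBilin' B (Pi.single (f a) 1) (Pi.single (g b) 1) := by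
        rw [Matrix.toBilin'_single]
      rw [h3, hexp, ← Finset.sum_coe_sort Z]
    have hr : (B.submatrix f g).rank ≤ 2 := by
      rw [hUW]
      refine (Matrix.rank_mul_le_left U W).trans ((Matrix.rank_le_card_width U).trans ?_)
      rw [Fintype.card_coe]
      omega
    have hr3 : (B.submatrix f g).rank = 3 := by
      have := Matrix.rank_of_isUnit (B.submatrix f g)
        ((Matrix.isUnit_iff_isUnit_det _).2 (isUnit_iff_ne_zero.2 hd))
      rw [this, Fintype.card_fin]
    omega

end Pool.Agent.Helper49.QU
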